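import Pool.Agent.Y883.GJ.Stm

/-!
# Project GJ: mean values over characters and classes
-/

set_option autoImplicit false

namespace Pool.Agent.Y812.GJ

open Finset
open Pool.Agent.H807R2.Dav (ee norm_ee)
open Pool.Agent.Y883.GJ

lemma conj_char {q : ℕ} [NeZero q] (χ : DirichletCharacter ℂ q) {m : ZMod q} (hm : IsUnit m) :
    (starRingEnd ℂ) (χ m) = χ m⁻¹ := by
  obtain ⟨u, rfl⟩ := hm
  rw [← RCLike.star_def, MulChar.star_apply', MulChar.inv_apply, ZMod.inv_coe_unit,
    Ring.inverse_unit]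

/-- Parseval for the characters modulo `q` -/
lemma parseval (q : ℕ) [NeZero q] (c : ZMod q → ℂ) :
    ∑ χ : DirichletCharacter ℂ q, ‖∑ l, c l * χ l‖ ^ 2 =
      q.totient * ∑ l ∈ univ.filter (fun l : ZMod q => IsUnit l), ‖c l‖ ^ 2 := by
  classical
  have e1 : ∀ z : ℂ, ((‖z‖ ^ 2 : ℝ) : ℂ) = z * (starRingEnd ℂ) z := by
    intro z
    rw [Complex.mul_conj, Complex.normSq_eq_norm_sq]
  have h1 : ∀ l m : ZMod q, ∑ χ : DirichletCharacter ℂ q, χ l * (starRingEnd ℂ) (χ m) =
      if IsUnit m ∧ m = l then (q.totient : ℂ) else 0 := by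
    intro l m
    by_cases hm : IsUnit m
    · have h2 := DirichletCharacter.sum_char_inv_mul_char_eq ℂ hm l
      calc ∑ χ : DirichletCharacter ℂ q, χ l * (starRingEnd ℂ) (χ m)
          = ∑ χ : DirichletCharacter ℂ q, χ m⁻¹ * χ l :=
            sum_congr rfl fun χ _ => by rw [conj_char χ hm, mul_comm]
        _ = _ := by
          rw [h2]
          by_cases h3 : m = l
          · rw [if_pos h3, if_pos ⟨hm, h3⟩]
          · rw [if_neg h3, if_neg fun h => h3 h.2]
    · rw [if_neg fun h => hm h.1]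
      refine sum_eq_zero fun χ _ => ?_
      rw [MulChar.map_nonunit _ hm, map_zero, mul_zero]
  apply Complex.ofReal_injective
  rw [Complex.ofReal_sum, Complex.ofReal_mul, Complex.ofReal_sum]
  calc ∑ χ : DirichletCharacter ℂ q, ((‖∑ l, c l * χ l‖ ^ 2 : ℝ) : ℂ)
      = ∑ χ : DirichletCharacter ℂ q, ∑ l, ∑ m, c l * (starRingEnd ℂ) (c m) *
          (χ l * (starRingEnd ℂ) (χ m)) := by
        refine sum_congr rfl fun χ _ => ?_
        rw [e1, map_sum, sum_mul_sum]
        refine sum_congr rfl fun l _ => sum_congr rfl fun m _ => ?_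
        rw [map_mul]
        ring
    _ = ∑ l, ∑ m, c l * (starRingEnd ℂ) (c m) *
          ∑ χ : DirichletCharacter ℂ q, χ l * (starRingEnd ℂ) (χ m) := by
        rw [sum_comm]
        refine sum_congr rfl fun l _ => ?_
        rw [sum_comm]
        refine sum_congr rfl fun m _ => ?_
        rw [mul_sum]
    _ = ∑ l, if IsUnit l then (q.totient : ℂ) * ((‖c l‖ ^ 2 : ℝ) : ℂ) else 0 := by
        refine sum_congr rfl fun l _ => ?_
        rw [sum_eq_single l]
        · rw [h1, e1]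
          by_cases hl : IsUnit l
          · rw [if_pos ⟨hl, rfl⟩, if_pos hl]
            ring
          · rw [if_neg fun h => hl h.1, if_neg hl, mul_zero]
        · intro m _ hm
          rw [h1, if_neg fun h => hm h.2, mul_zero]
        · intro h
          exact absurd (mem_univ _) h
    _ = _ := by
        rw [sum_filter, mul_sum]
        refine sum_congr rfl fun l _ => ?_
        split_ifs
        · rfl
        · rw [mul_zero]

/-- the number of elements in a class -/
lemma card_class (q X : ℕ) [NeZero q] (l : ZMod q) :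
    (((Icc 1 X).filter (fun n : ℕ => (n : ZMod q) = l)).card : ℝ) ≤ (X : ℝ) / q + 1 := by
  have hq : 0 < q := NeZero.pos q
  have h : ((Icc 1 X).filter (fun n : ℕ => (n : ZMod q) = l)).card ≤ X / q + 1 := by
    rw [← card_range (X / q + 1)]
    refine card_le_card_of_injOn (fun n => n / q) ?_ ?_
    · intro n hn
      rw [mem_coe, mem_filter, mem_Icc] at hn
      rw [mem_coe, mem_range]
      exact Nat.lt_succ_of_le (Nat.div_le_div_right hn.1.2)
    · intro n hn m hm h
      rw [mem_coe, mem_filter] at hn hm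
      have h1 : n ≡ m [MOD q] := (ZMod.natCast_eq_natCast_iff n m q).1 (hn.2.trans hm.2.symm)
      have h2 : n / q = m / q := h
      rw [← Nat.div_add_mod n q, ← Nat.div_add_mod m q, h2, h1]
  calc (((Icc 1 X).filter (fun n : ℕ => (n : ZMod q) = l)).card : ℝ)
      ≤ ((X / q + 1 : ℕ) : ℝ) := by exact_mod_cast h
    _ = ((X / q : ℕ) : ℝ) + 1 := by push_cast; rfl
    _ ≤ (X : ℝ) / q + 1 := by
      have := Nat.cast_div_le (α := ℝ) (m := X) (n := q)
      linarith

/-- Cauchy-Schwarz in a class -/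
lemma class_le (q X : ℕ) [NeZero q] (v : ℕ → ℂ) (l : ZMod q) :
    ‖∑ n ∈ (Icc 1 X).filter (fun n : ℕ => (n : ZMod q) = l), v n‖ ^ 2 ≤
      ((X : ℝ) / q + 1) *
        ∑ n ∈ (Icc 1 X).filter (fun n : ℕ => (n : ZMod q) = l), ‖v n‖ ^ 2 := by
  calc ‖∑ n ∈ (Icc 1 X).filter (fun n : ℕ => (n : ZMod q) = l), v n‖ ^ 2
      ≤ (∑ n ∈ (Icc 1 X).filter (fun n : ℕ => (n : ZMod q) = l), ‖v n‖) ^ 2 := by
        gcongr
        exact norm_sum_le _ _
    _ ≤ ((Icc 1 X).filter (fun n : ℕ => (n : ZMod q) = l)).card *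
        ∑ n ∈ (Icc 1 X).filter (fun n : ℕ => (n : ZMod q) = l), ‖v n‖ ^ 2 :=
        sq_sum_le_card_mul_sum_sq
    _ ≤ _ := by
        gcongr
        exact card_class q X l

lemma sum_class_le (q X : ℕ) [NeZero q] (v : ℕ → ℂ) :
    ∑ l : ZMod q, ‖∑ n ∈ (Icc 1 X).filter (fun n : ℕ => (n : ZMod q) = l), v n‖ ^ 2 ≤
      ((X : ℝ) / q + 1) * ∑ n ∈ Icc 1 X, ‖v n‖ ^ 2 := by
  refine (sum_le_sum fun l _ => class_le q X v l).trans (le_of_eq ?_)
  rw [← mul_sum, sum_fiberwise (Icc 1 X) (fun n : ℕ => (n : ZMod q)) (fun n => ‖v n‖ ^ 2)]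

theorem l2 : L2Stm := by
  intro q X _ w
  have hq : (0 : ℝ) < q := by exact_mod_cast NeZero.pos q
  constructor
  · have h1 : ∀ χ : DirichletCharacter ℂ q, ∑ n ∈ Icc 1 X, w n * χ (n : ZMod q) =
        ∑ l : ZMod q, (∑ n ∈ (Icc 1 X).filter (fun n : ℕ => (n : ZMod q) = l), w n) * χ l := by
      intro χ
      rw [← sum_fiberwise (Icc 1 X) (fun n : ℕ => (n : ZMod q))
        (fun n => w n * χ (n : ZMod q))]
      refine sum_congr rfl fun l _ => ?_
      rw [sum_mul]
      refine sum_congr rfl fun n hn => ?_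
      rw [(mem_filter.1 hn).2]
    simp_rw [h1]
    rw [parseval]
    have h2 : ∑ l ∈ univ.filter (fun l : ZMod q => IsUnit l),
        ‖∑ n ∈ (Icc 1 X).filter (fun n : ℕ => (n : ZMod q) = l), w n‖ ^ 2 ≤
        ((X : ℝ) / q + 1) * ∑ n ∈ Icc 1 X, ‖w n‖ ^ 2 :=
      (sum_le_sum_of_subset_of_nonneg (filter_subset _ _) fun _ _ _ => by positivity).trans
        (sum_class_le q X w)
    have h3 : (q.totient : ℝ) ≤ q := by exact_mod_cast Nat.totient_le q
    have h4 : 0 ≤ ∑ n ∈ Icc 1 X, ‖w n‖ ^ 2 := sum_nonneg fun _ _ => by positivity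
    calc (q.totient : ℝ) * ∑ l ∈ univ.filter (fun l : ZMod q => IsUnit l),
          ‖∑ n ∈ (Icc 1 X).filter (fun n : ℕ => (n : ZMod q) = l), w n‖ ^ 2
        ≤ q * (((X : ℝ) / q + 1) * ∑ n ∈ Icc 1 X, ‖w n‖ ^ 2) :=
          mul_le_mul h3 h2 (sum_nonneg fun _ _ => by positivity) hq.le
      _ = ((X : ℝ) + q) * ∑ n ∈ Icc 1 X, ‖w n‖ ^ 2 := by
        field_simp
  · intro β
    have h1 := sum_class_le q X (fun n => w n * ee (n * β))
    simp only [norm_mul, norm_ee, mul_one] at h1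
    exact h1

end Pool.Agent.Y812.GJ
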