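import Pool.Agent.Y883.GJ.Stm
import Pool.Agent.Y883.T3.Lsh

/-!
# Project GJ: type I structure of the sieve model
-/

set_option autoImplicit false

namespace Pool.Agent.Y812.GJ

open Finset
open Pool.Agent.H373R2.T7 (lamz Vz pz Vz_pos sum_small_le)
open Pool.Agent.Y883.T3 (lsh prime_of_mem)
open Pool.Agent.Y883.GJ

/-- sums over multiples -/
lemma sum_mulV {V : Type} [AddCommMonoid V] (N d : ℕ) (hd : 1 ≤ d) (G : ℕ → V) :
    ∑ n ∈ (Icc 1 N).filter (fun n => d ∣ n), G n = ∑ b ∈ Icc 1 (N / d), G (b * d) := by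
  symm
  refine sum_nbij' (fun b => b * d) (fun n => n / d) ?_ ?_ ?_ ?_ ?_
  · intro b hb
    rw [mem_Icc] at hb
    rw [mem_filter, mem_Icc]
    exact ⟨⟨Nat.mul_pos hb.1 hd, (Nat.le_div_iff_mul_le hd).1 hb.2⟩, Dvd.intro_left b rfl⟩
  · intro n hn
    rw [mem_filter, mem_Icc] at hn
    rw [mem_Icc]
    exact ⟨Nat.div_pos (Nat.le_of_dvd hn.1.1 hn.2) hd, Nat.div_le_div_right hn.1.2⟩
  · intro b _
    exact Nat.mul_div_cancel b hd
  · intro n hn
    exact Nat.div_mul_cancel (mem_filter.1 hn).2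
  · intro b _
    rfl

theorem lsh_le : LshStm := by
  intro V _ _ E N z r Y hY
  classical
  have hV0 : 0 < (Vz z)⁻¹ := inv_pos.2 (Vz_pos z)
  have hpos : ∀ j, ∀ S ∈ (pz z).powersetCard j, 1 ≤ ∏ p ∈ S, p := fun j S hS =>
    Nat.pos_of_ne_zero (prod_ne_zero_iff.2 fun p hp => (prime_of_mem hS p hp).ne_zero)
  have e1 : ∑ n ∈ Icc 1 N, (lsh z r n) • E n = (Vz z)⁻¹ • ∑ j ∈ range r, ((-1 : ℝ) ^ j) •
      ∑ S ∈ (pz z).powersetCard j,
        ∑ n ∈ (Icc 1 N).filter (fun n => (∏ p ∈ S, p) ∣ n), E n := by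
    have e2 : ∀ n ∈ Icc 1 N, (lsh z r n) • E n = (Vz z)⁻¹ • ∑ j ∈ range r, ((-1 : ℝ) ^ j) •
        ∑ S ∈ (pz z).powersetCard j, (if (∏ p ∈ S, p) ∣ n then E n else 0) := by
      intro n _
      unfold lsh
      rw [mul_smul, sum_smul]
      congr 1
      refine sum_congr rfl fun j _ => ?_
      rw [mul_smul, sum_smul]
      congr 1
      refine sum_congr rfl fun S _ => ?_
      split_ifs
      · rw [one_smul]
      · rw [zero_smul]
    rw [sum_congr rfl e2, ← smul_sum, sum_comm]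
    congr 1
    refine sum_congr rfl fun j _ => ?_
    rw [← smul_sum, sum_comm]
    congr 1
    refine sum_congr rfl fun S _ => ?_
    rw [sum_filter]
  rw [e1, norm_smul, Real.norm_of_nonneg hV0.le]
  refine mul_le_mul_of_nonneg_left ?_ hV0.le
  have h5 : ∀ j ∈ range r, ‖((-1 : ℝ) ^ j) • ∑ S ∈ (pz z).powersetCard j,
        ∑ n ∈ (Icc 1 N).filter (fun n => (∏ p ∈ S, p) ∣ n), E n‖ ≤
      ∑ S ∈ (pz z).powersetCard j, ‖∑ b ∈ Icc 1 (N / (∏ p ∈ S, p)), E (b * (∏ p ∈ S, p))‖ := by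
    intro j _
    rw [norm_smul, norm_pow, norm_neg, norm_one, one_pow, one_mul]
    refine (norm_sum_le _ _).trans (sum_le_sum fun S hS => ?_)
    rw [sum_mulV N _ (hpos j S hS)]
  refine (norm_sum_le _ _).trans ((sum_le_sum h5).trans ?_)
  have h6 := sum_small_le z r (fun d => ‖∑ b ∈ Icc 1 (N / d), E (b * d)‖) (fun d => norm_nonneg _)
  rw [sum_range_succ] at h6
  have h7 : 0 ≤ ∑ S ∈ (pz z).powersetCard r,
      ‖∑ b ∈ Icc 1 (N / (∏ p ∈ S, p)), E (b * (∏ p ∈ S, p))‖ := sum_nonneg fun S _ => norm_nonneg _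
  have h8 : ∑ d ∈ Icc 1 ((z + 1) ^ r), ‖∑ b ∈ Icc 1 (N / d), E (b * d)‖ ≤
      ∑ d ∈ Icc 1 ((z + 1) ^ r), Y d := sum_le_sum hY
  linarith

end Pool.Agent.Y812.GJ
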