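import Pool.Agent.Y812.GJ.L2
import Pool.Agent.TH935.LP.L1

/-!
# Project GJ: classes not coprime to the modulus
-/

set_option autoImplicit false

namespace Pool.Agent.Y812.GJ

open Finset
open Pool.Agent.H807R2.Dav (ee norm_ee)
open Pool.Agent.Y883.GJ

theorem nonU : NonUStm := by
  refine ⟨11, fun q N _ F ℓ T β hN hℓ hF hT => ?_⟩
  classical
  have hq : (0 : ℝ) < q := by exact_mod_cast NeZero.pos q
  have hlog : 0 ≤ Real.log N := Real.log_nonneg (by exact_mod_cast hN)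
  have hℓ1 : 1 ≤ ℓ := by linarith
  set S := (Icc 1 N).filter (fun n => ¬ n.Coprime q) with hS
  -- reduction to a sum over integers not coprime to `q`
  have h1 : ∑ l ∈ univ.filter (fun l : ZMod q => ¬ IsUnit l), ‖cl q N F β l‖ ^ 2 ≤
      ((N : ℝ) / q + 1) * ∑ n ∈ S, ‖F n‖ ^ 2 := by
    have h2 : ∀ l : ZMod q, ‖cl q N F β l‖ ^ 2 ≤ ((N : ℝ) / q + 1) *
        ∑ n ∈ (Icc 1 N).filter (fun n : ℕ => (n : ZMod q) = l), ‖F n‖ ^ 2 := by
      intro l
      have h3 := class_le q N (fun n => F n * ee (n * β)) l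
      simp only [norm_mul, norm_ee, mul_one] at h3
      exact h3
    refine (sum_le_sum fun l _ => h2 l).trans (le_of_eq ?_)
    rw [← mul_sum]
    congr 1
    rw [← sum_fiberwise S (fun n : ℕ => (n : ZMod q)) (fun n => ‖F n‖ ^ 2)]
    have h3 : ∀ g : ZMod q → ℝ, ∑ l ∈ univ.filter (fun l : ZMod q => ¬ IsUnit l), g l =
        ∑ l : ZMod q, if ¬ IsUnit l then g l else 0 := fun g => sum_filter _ _
    rw [h3]
    refine sum_congr rfl fun l _ => ?_
    split_ifs with hl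
    rotate_left
    · refine sum_congr ?_ fun _ _ => rfl
      ext n
      rw [hS, mem_filter, mem_filter, mem_filter]
      constructor
      · rintro ⟨h3, h4⟩
        refine ⟨⟨h3, fun h5 => hl ?_⟩, h4⟩
        rw [← h4]
        exact (ZMod.isUnit_iff_coprime n q).2 h5
      · rintro ⟨⟨h3, _⟩, h4⟩
        exact ⟨h3, h4⟩
    · symm
      refine sum_eq_zero fun n hn => ?_
      exfalso
      rw [hS, mem_filter, mem_filter] at hn
      apply hn.1.2
      rw [← hn.2] at hl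
      exact (ZMod.isUnit_iff_coprime n q).1 hl
  refine h1.trans (mul_le_mul_of_nonneg_left ?_ (by positivity))
  -- Cauchy-Schwarz
  have h3 : ∑ n ∈ S, ‖F n‖ ^ 3 ≤ N * ℓ ^ 11 := by
    calc ∑ n ∈ S, ‖F n‖ ^ 3 ≤ ∑ n ∈ Icc 1 N, ‖F n‖ ^ 3 :=
          sum_le_sum_of_subset_of_nonneg (filter_subset _ _) fun _ _ _ => by positivity
      _ ≤ ∑ n ∈ Icc 1 N, ℓ ^ 3 * (n.divisors.card : ℝ) ^ 3 := by
          refine sum_le_sum fun n hn => ?_
          rw [← mul_pow]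
          gcongr
          exact hF n hn
      _ = ℓ ^ 3 * ∑ n ∈ Icc 1 N, (n.divisors.card : ℝ) ^ 3 := by rw [mul_sum]
      _ ≤ ℓ ^ 3 * (N * (1 + Real.log N) ^ (2 ^ 3)) := by
          gcongr
          exact Pool.Agent.TH935.LD.tau_pow_sum 3 N
      _ ≤ ℓ ^ 3 * (N * ℓ ^ 8) := by
          have : (1 + Real.log N) ^ (2 ^ 3) ≤ ℓ ^ 8 := by
            norm_num
            gcongr
          gcongr
      _ = N * ℓ ^ 11 := by ring
  have h4 : (∑ n ∈ S, ‖F n‖ ^ 2) ^ 2 ≤ T * (N * ℓ ^ 11) := by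
    have h5 := sum_mul_sq_le_sq_mul_sq S (fun n => Real.sqrt ‖F n‖)
      (fun n => Real.sqrt ‖F n‖ * ‖F n‖)
    have e1 : ∀ n, Real.sqrt ‖F n‖ * (Real.sqrt ‖F n‖ * ‖F n‖) = ‖F n‖ ^ 2 := by
      intro n
      rw [← mul_assoc, Real.mul_self_sqrt (norm_nonneg _), sq]
    have e2 : ∀ n, Real.sqrt ‖F n‖ ^ 2 = ‖F n‖ := fun n => Real.sq_sqrt (norm_nonneg _)
    have e3 : ∀ n, (Real.sqrt ‖F n‖ * ‖F n‖) ^ 2 = ‖F n‖ ^ 3 := by
      intro n
      rw [mul_pow, e2]
      ring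
    simp only [e1, e2, e3] at h5
    refine h5.trans (mul_le_mul hT h3 (sum_nonneg fun _ _ => by positivity) ?_)
    exact (sum_nonneg fun _ _ => norm_nonneg _).trans hT
  exact Real.le_sqrt_of_sq_le h4

end Pool.Agent.Y812.GJ
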